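import Pool.Agent.W564.SC.Defs

set_option autoImplicit false

open scoped Manifold ContDiff Topology
open Filter Set Metric

namespace Pool.Agent.W271.SC

open Pool.Agent.H718R2.G Pool.Agent.W564.SC

theorem bump : S_BUMP := by
  intro n k hk
  let β : ContDiffBump (0 : V n) := ⟨1, 2, one_pos, one_lt_two⟩
  have hβs : ContDiff ℝ ∞ (β : V n → ℝ) := β.contDiff
  have hβc : HasCompactSupport (β : V n → ℝ) := β.hasCompactSupport
  have hbd : ∀ j : ℕ, ∃ C : ℝ, ∀ x : V n, ‖iteratedFDeriv ℝ j (β : V n → ℝ) x‖ ≤ C := by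
    intro j
    have hc : Continuous (iteratedFDeriv ℝ j (β : V n → ℝ)) :=
      hβs.continuous_iteratedFDeriv (by exact_mod_cast le_top)
    exact hc.bounded_above_of_compact_support (hβc.iteratedFDeriv j)
  choose C hC using hbd
  have hC0 : ∀ j, 0 ≤ C j := fun j => (norm_nonneg _).trans (hC j 0)
  refine ⟨1 + ∑ j ∈ Finset.range (k + 1), C j, ?_, ?_⟩
  · have := Finset.sum_nonneg (fun j (_ : j ∈ Finset.range (k + 1)) => hC0 j)
    linarith
  intro ρ hρ hρ4 w hw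
  set M : V n →L[ℝ] V n := ρ⁻¹ • ContinuousLinearMap.id ℝ (V n) with hM
  set Lw : ℝ →L[ℝ] V n := (ContinuousLinearMap.id ℝ ℝ).smulRight (-w) with hLw
  have hMx : ∀ x, M x = ρ⁻¹ • x := fun x => by simp [hM]
  have hLx : ∀ c, Lw c = -(c • w) := fun c => by simp [hLw]
  have hnM : ‖M‖ ≤ ρ⁻¹ := by
    refine ContinuousLinearMap.opNorm_le_bound _ (inv_nonneg.2 hρ.le) (fun x => ?_)
    rw [hMx, norm_smul, Real.norm_of_nonneg (inv_nonneg.2 hρ.le)]
  have hnL : ‖Lw‖ ≤ ‖w‖ := by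
    refine ContinuousLinearMap.opNorm_le_bound _ (norm_nonneg _) (fun c => ?_)
    rw [hLx, norm_neg, norm_smul, mul_comm]
  have hρ1 : 1 ≤ ρ⁻¹ := by
    rw [one_le_inv₀ hρ]; linarith
  have hnx : ∀ x : V n, ‖ρ⁻¹ • x‖ = ‖x‖ / ρ := fun x => by
    rw [norm_smul, Real.norm_of_nonneg (inv_nonneg.2 hρ.le), div_eq_inv_mul]
  have hzero : ∀ x : V n, 2 * ρ ≤ ‖x‖ → (Lw ∘ ((β : V n → ℝ) ∘ M)) x = 0 := by
    intro x hx
    have h1 : β (ρ⁻¹ • x) = 0 := by
      apply β.zero_of_le_dist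
      rw [dist_zero_right, hnx]
      show (2 : ℝ) ≤ _
      rw [le_div_iff₀ hρ]
      exact hx
    simp only [Function.comp_apply, hMx, h1, hLx, zero_smul, neg_zero]
  refine ⟨Lw ∘ ((β : V n → ℝ) ∘ M), ⟨?_, ?_, ?_⟩, ?_, hzero⟩
  · exact Lw.contDiff.comp (hβs.comp M.contDiff)
  · intro x hx
    exact hzero x (by linarith)
  · intro j hj x
    have hcomp : ContDiff ℝ ∞ ((β : V n → ℝ) ∘ M) := hβs.comp M.contDiff
    have h1 : ‖iteratedFDeriv ℝ j (Lw ∘ ((β : V n → ℝ) ∘ M)) x‖ ≤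
        ‖Lw‖ * ‖iteratedFDeriv ℝ j ((β : V n → ℝ) ∘ M) x‖ := by
      apply Lw.norm_iteratedFDeriv_comp_left (hcomp.contDiffAt (x := x))
      exact_mod_cast le_top
    have h2 : ‖iteratedFDeriv ℝ j ((β : V n → ℝ) ∘ M) x‖ ≤ C j * (ρ⁻¹) ^ j := by
      rw [M.iteratedFDeriv_comp_right hβs x (by exact_mod_cast le_top)]
      refine (ContinuousMultilinearMap.norm_compContinuousLinearMap_le _ _).trans ?_
      rw [Finset.prod_const, Finset.card_univ, Fintype.card_fin]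
      exact mul_le_mul (hC j _) (pow_le_pow_left₀ (norm_nonneg _) hnM j)
        (pow_nonneg (norm_nonneg _) _) (hC0 j)
    have h3 : (ρ⁻¹) ^ j ≤ (ρ⁻¹) ^ k := pow_le_pow_right₀ hρ1 hj
    have h4 : C j ≤ 1 + ∑ j ∈ Finset.range (k + 1), C j := by
      have := Finset.single_le_sum (fun i (_ : i ∈ Finset.range (k + 1)) => hC0 i)
        (Finset.mem_range.2 (Nat.lt_succ_of_le hj))
      linarith
    calc ‖iteratedFDeriv ℝ j (Lw ∘ ((β : V n → ℝ) ∘ M)) x‖
        ≤ ‖Lw‖ * ‖iteratedFDeriv ℝ j ((β : V n → ℝ) ∘ M) x‖ := h1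
      _ ≤ ‖w‖ * ((1 + ∑ j ∈ Finset.range (k + 1), C j) * (ρ⁻¹) ^ k) := by
          apply mul_le_mul hnL (h2.trans ?_) (norm_nonneg _) (norm_nonneg _)
          exact mul_le_mul h4 h3 (by positivity) ((hC0 j).trans h4)
      _ = (1 + ∑ j ∈ Finset.range (k + 1), C j) * (‖w‖ / ρ ^ k) := by
          rw [inv_pow, div_eq_mul_inv]; ring
  · have h1 : β (ρ⁻¹ • w) = 1 := by
      apply β.one_of_mem_closedBall
      rw [mem_closedBall, dist_zero_right, hnx]
      show _ ≤ (1 : ℝ)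
      rw [div_le_one hρ]
      exact hw
    simp only [Function.comp_apply, hMx, h1, hLx, one_smul]

end Pool.Agent.W271.SC
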